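import Pool.Agent.H211.HY.Stm1
import Pool.Graph.R_seed8.H792R2.CE.D1
import Pool.Graph.R_seed8.H792R2.CE.D3

set_option autoImplicit false

open Topology Filter Metric Set MeasureTheory Polynomial

namespace Pool.Agent.H726.HY211

open Pool.Agent.H211.HY

theorem refl_eval {P : ℂ[X]} {d : ℕ} (h : P.natDegree ≤ d) {z : ℂ} (hz : z ≠ 0) :
    P.eval z = (reflect d P).eval z⁻¹ * z ^ d := by
  let _ : Invertible z := invertibleOfNonzero hz
  have h1 := eval₂_reflect_mul_pow (RingHom.id ℂ) z d P h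
  rw [← eval₂_id, ← h1, invOf_eq_inv, eval₂_id]

theorem refl_zero {P : ℂ[X]} {d : ℕ} : (reflect d P).eval 0 = P.coeff d := by
  rw [← coeff_zero_eq_eval_zero, coeff_reflect, revAt_le (Nat.zero_le d), Nat.sub_zero]

/-- lower bound for coprime polynomials -/
theorem low {P Q : ℂ[X]} {d : ℕ} (hc : IsCoprime P Q) (hd : max P.natDegree Q.natDegree = d) :
    ∃ c : ℝ, 0 < c ∧ ∀ z : ℂ, c * (1 + ‖z‖) ^ (2 * d) ≤ ‖P.eval z‖ ^ 2 + ‖Q.eval z‖ ^ 2 := by
  have hP : P.natDegree ≤ d := by rw [← hd]; exact le_max_left _ _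
  have hQ : Q.natDegree ≤ d := by rw [← hd]; exact le_max_right _ _
  have hne : ∀ z : ℂ, P.eval z ≠ 0 ∨ Q.eval z ≠ 0 := by
    intro z
    by_contra h
    push Not at h
    obtain ⟨a, b, hab⟩ := hc
    have h1 := congrArg (eval z) hab
    rw [eval_add, eval_mul, eval_mul, h.1, h.2, mul_zero, mul_zero, add_zero, eval_one] at h1
    exact zero_ne_one h1
  have hcoef : P.coeff d ≠ 0 ∨ Q.coeff d ≠ 0 := by
    by_contra h
    push Not at h
    rcases le_total P.natDegree Q.natDegree with h1 | h1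
    · rw [max_eq_right h1] at hd
      have h2 : Q.leadingCoeff = 0 := by rw [leadingCoeff, hd, h.2]
      rw [leadingCoeff_eq_zero] at h2
      have h3 : P.natDegree = 0 := by
        rw [h2, natDegree_zero] at h1
        omega
      have h4 : d = 0 := by rw [← hd, h2, natDegree_zero]
      have h5 : P = 0 := by
        rw [eq_C_of_natDegree_eq_zero h3, ← h4, h.1, C_0]
      rw [h2, h5] at hc
      exact not_isCoprime_zero_zero hc
    · rw [max_eq_left h1] at hd
      have h2 : P.leadingCoeff = 0 := by rw [leadingCoeff, hd, h.1]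
      rw [leadingCoeff_eq_zero] at h2
      have h3 : Q.natDegree = 0 := by
        rw [h2, natDegree_zero] at h1
        omega
      have h4 : d = 0 := by rw [← hd, h2, natDegree_zero]
      have h5 : Q = 0 := by
        rw [eq_C_of_natDegree_eq_zero h3, ← h4, h.2, C_0]
      rw [h2, h5] at hc
      exact not_isCoprime_zero_zero hc
  have key : ∀ A B : ℂ[X], (∀ z : ℂ, A.eval z ≠ 0 ∨ B.eval z ≠ 0) → ∃ c : ℝ, 0 < c ∧
      ∀ z : ℂ, ‖z‖ ≤ 1 → c ≤ ‖A.eval z‖ ^ 2 + ‖B.eval z‖ ^ 2 := by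
    intro A B hAB
    have hcpt : IsCompact (closedBall (0 : ℂ) 1) := isCompact_closedBall 0 1
    have hcont : Continuous fun z : ℂ => ‖A.eval z‖ ^ 2 + ‖B.eval z‖ ^ 2 :=
      (A.continuous.norm.pow 2).add (B.continuous.norm.pow 2)
    obtain ⟨z₀, hz₀, hmin⟩ := hcpt.exists_isMinOn ⟨0, mem_closedBall_self zero_le_one⟩
      hcont.continuousOn
    refine ⟨‖A.eval z₀‖ ^ 2 + ‖B.eval z₀‖ ^ 2, ?_, fun z hz => ?_⟩
    · rcases hAB z₀ with h | h
      · have := norm_pos_iff.2 h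
        positivity
      · have := norm_pos_iff.2 h
        positivity
    · exact hmin (mem_closedBall_zero_iff.2 hz)
  obtain ⟨c₁, hc₁, h₁⟩ := key P Q hne
  obtain ⟨c₂, hc₂, h₂⟩ := key (reflect d P) (reflect d Q) (by
    intro u
    by_cases hu : u = 0
    · rw [hu, refl_zero, refl_zero]
      exact hcoef
    · have hu' : u⁻¹ ≠ 0 := inv_ne_zero hu
      have e1 := refl_eval hP hu'
      have e2 := refl_eval hQ hu'
      rw [inv_inv] at e1 e2
      rcases hne u⁻¹ with h | h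
      · left
        intro h0
        rw [e1, h0, zero_mul] at h
        exact h rfl
      · right
        intro h0
        rw [e2, h0, zero_mul] at h
        exact h rfl)
  refine ⟨min c₁ c₂ / 4 ^ d, by positivity, fun z => ?_⟩
  have h4 : (0 : ℝ) < 4 ^ d := by positivity
  rcases le_total ‖z‖ 1 with hz | hz
  · have e1 : (1 + ‖z‖) ^ (2 * d) ≤ 4 ^ d := by
      rw [pow_mul]
      refine pow_le_pow_left₀ (by positivity) ?_ d
      nlinarith [norm_nonneg z]
    calc min c₁ c₂ / 4 ^ d * (1 + ‖z‖) ^ (2 * d) ≤ min c₁ c₂ / 4 ^ d * 4 ^ d := by gcongr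
      _ = min c₁ c₂ := by field_simp
      _ ≤ c₁ := min_le_left _ _
      _ ≤ _ := h₁ z hz
  · have hz0 : z ≠ 0 := by
      intro h
      rw [h, norm_zero] at hz
      linarith
    have hzp : 0 < ‖z‖ := norm_pos_iff.2 hz0
    have e1 : (1 + ‖z‖) ^ (2 * d) ≤ 4 ^ d * ‖z‖ ^ (2 * d) := by
      rw [pow_mul, pow_mul, ← mul_pow]
      refine pow_le_pow_left₀ (by positivity) ?_ d
      nlinarith [norm_nonneg z]
    have e2 : c₂ ≤ ‖(reflect d P).eval z⁻¹‖ ^ 2 + ‖(reflect d Q).eval z⁻¹‖ ^ 2 := by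
      apply h₂
      rw [norm_inv]
      exact inv_le_one_of_one_le₀ hz
    rw [refl_eval hP hz0, refl_eval hQ hz0, norm_mul, norm_mul, norm_pow, mul_pow, mul_pow,
      ← pow_mul, mul_comm d 2, ← add_mul]
    calc min c₁ c₂ / 4 ^ d * (1 + ‖z‖) ^ (2 * d)
        ≤ min c₁ c₂ / 4 ^ d * (4 ^ d * ‖z‖ ^ (2 * d)) := by gcongr
      _ = min c₁ c₂ * ‖z‖ ^ (2 * d) := by field_simp
      _ ≤ _ := by
        gcongr
        exact (min_le_right _ _).trans e2

theorem upp {S : ℂ[X]} {N : ℕ} (h : S.natDegree ≤ N) :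
    ∃ C : ℝ, 0 ≤ C ∧ ∀ z : ℂ, ‖S.eval z‖ ≤ C * (1 + ‖z‖) ^ N := by
  refine ⟨∑ i ∈ Finset.range (N + 1), ‖S.coeff i‖, Finset.sum_nonneg fun _ _ => norm_nonneg _,
    fun z => ?_⟩
  rw [eval_eq_sum_range' (Nat.lt_succ_of_le h), Finset.sum_mul]
  refine (norm_sum_le _ _).trans (Finset.sum_le_sum fun i hi => ?_)
  rw [norm_mul, norm_pow]
  have hi' : i ≤ N := Nat.lt_succ_iff.1 (Finset.mem_range.1 hi)
  gcongr
  calc ‖z‖ ^ i ≤ (1 + ‖z‖) ^ i := by
        gcongr
        linarith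
    _ ≤ (1 + ‖z‖) ^ N := pow_le_pow_right₀ (by linarith [norm_nonneg z]) hi'

/-- `P - f(c) Q` vanishes to the order of the critical point -/
theorem dvd_PfQ {P Q : ℂ[X]} {c : ℂ} {m : ℕ} (hQ : Q.eval c ≠ 0) (hW : (X - C c) ^ m ∣ Wp P Q) :
    (X - C c) ^ m ∣ P - C (P.eval c / Q.eval c) * Q := by
  set f : ℂ := P.eval c / Q.eval c with hf
  set R : ℂ[X] := P - C f * Q with hR
  have hWR : Wp P Q = derivative R * Q - R * derivative Q := by
    rw [Wp, hR, derivative_sub, derivative_C_mul]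
    ring
  have hR0 : R.eval c = 0 := by
    rw [hR, eval_sub, eval_mul, eval_C, hf, div_mul_cancel₀ _ hQ, sub_self]
  have hind : ∀ j, j ≤ m → (X - C c) ^ j ∣ R := by
    intro j
    induction j with
    | zero =>
      intro _
      rw [pow_zero]
      exact one_dvd _
    | succ j ih =>
      intro hj
      rcases Nat.eq_zero_or_pos j with h0 | h0
      · rw [h0, zero_add, pow_one]
        exact dvd_iff_isRoot.2 hR0
      obtain ⟨R₁, hR₁⟩ := ih (by omega)
      obtain ⟨i, rfl⟩ : ∃ i, j = i + 1 := ⟨j - 1, by omega⟩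
      have h1 : (X - C c) ^ (i + 1) ∣ derivative R * Q - R * derivative Q := by
        rw [← hWR]
        exact (pow_dvd_pow _ (by omega)).trans hW
      rw [hR₁, derivative_mul, derivative_X_sub_C_pow] at h1
      have h2 : (X - C c) ^ (i + 1) ∣ (X - C c) ^ i * (C ((i + 1 : ℕ) : ℂ) * (R₁ * Q)) := by
        have h3 : (X - C c) ^ i * (C ((i + 1 : ℕ) : ℂ) * (R₁ * Q)) =
            ((C ((i + 1 : ℕ) : ℂ) * (X - C c) ^ (i + 1 - 1) * R₁ +
              (X - C c) ^ (i + 1) * derivative R₁) * Q - (X - C c) ^ (i + 1) * R₁ * derivative Q) -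
            (X - C c) ^ (i + 1) * (derivative R₁ * Q - R₁ * derivative Q) := by
          rw [Nat.add_sub_cancel]
          ring
        rw [h3]
        exact dvd_sub h1 (dvd_mul_right _ _)
      rw [pow_succ] at h2
      have h4 : (X - C c) ∣ C ((i + 1 : ℕ) : ℂ) * (R₁ * Q) :=
        (mul_dvd_mul_iff_left (pow_ne_zero _ (X_sub_C_ne_zero c))).1 h2
      rw [dvd_iff_isRoot, IsRoot.def, eval_mul, eval_mul, eval_C] at h4
      have h5 : R₁.eval c = 0 := by
        rcases mul_eq_zero.1 h4 with h | h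
        · exfalso
          have : (i + 1 : ℕ) ≠ 0 := by omega
          exact this (by exact_mod_cast h)
        · exact (mul_eq_zero.1 h).resolve_right hQ
      obtain ⟨R₂, hR₂⟩ := dvd_iff_isRoot.2 h5
      refine ⟨R₂, ?_⟩
      rw [hR₁, hR₂]
      ring
  exact hind m le_rfl

/-- the test polynomials are tangent -/
theorem tng_aux {P Q S D E : ℂ[X]} {c x : ℂ} {m : ℕ} (hQ : Q.eval c ≠ 0)
    (hW : (X - C c) ^ m ∣ Wp P Q) (hx : x ≠ P.eval c / Q.eval c) (hD : D = P - C x * Q)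
    (hS : Q ^ 3 = D * S + Wp P Q * E) :
    ∃ a : ℂ, (X - C c) ^ m ∣ S - C a * Q ^ 2 := by
  set f : ℂ := P.eval c / Q.eval c with hf
  have h1 := dvd_PfQ hQ hW
  rw [← hf] at h1
  have hfx : f - x ≠ 0 := sub_ne_zero.2 hx.symm
  refine ⟨1 / (f - x), ?_⟩
  have h2 : (X - C c) ^ m ∣ Q * (C (f - x) * S - Q ^ 2) := by
    have h3 : Q * (C (f - x) * S - Q ^ 2) =
        - (Wp P Q * E) - (P - C f * Q) * S := by
      have h4 : Q ^ 3 = (P - C x * Q) * S + Wp P Q * E := by rw [hS, hD]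
      rw [C_sub]
      linear_combination (-1 : ℂ[X]) * h4
    rw [h3]
    exact dvd_sub ((dvd_neg.2 (hW.mul_right _))) (h1.mul_right _)
  have hcop : IsCoprime ((X - C c) ^ m) Q := by
    apply IsCoprime.pow_left
    rw [(irreducible_X_sub_C c).coprime_iff_not_dvd, dvd_iff_isRoot]
    exact hQ
  have h5 := hcop.dvd_of_dvd_mul_left h2
  have h6 : S - C (1 / (f - x)) * Q ^ 2 = C (1 / (f - x)) * (C (f - x) * S - Q ^ 2) := by
    have h7 : C (1 / (f - x)) * C (f - x) = (1 : ℂ[X]) := by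
      rw [← C_mul, one_div_mul_cancel hfx, C_1]
    linear_combination (- S) * h7
  rw [h6]
  exact h5.mul_left _


/-- one orbit -/
theorem one {P Q S : ℂ[X]} {c : ℂ} {v α : ℕ → ℂ} (hc : (Wp P Q).eval c = 0)
    (hQc : Q.eval c ≠ 0) (hv0 : v 0 = P.eval c / Q.eval c)
    (hvs : ∀ j, v (j + 1) = P.eval (v j) / Q.eval (v j))
    (hα0 : α 0 = 1) (hαs : ∀ j, α (j + 1) = α j * (Q.eval (v j) ^ 2 / (Wp P Q).eval (v j)))
    (hQv : ∀ j, Q.eval (v j) ≠ 0) (hNv : ∀ j, (Wp P Q).eval (v j) ≠ 0)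
    (hTs : Summable fun j => S.eval (v j) / (Wp P Q).eval (v j) * α j)
    {x : ℂ} (hxv : ∀ j, x ≠ v j)
    (hsum : Summable fun j => α j / (x - v j))
    (hsumw : ∀ w, (P - C x * Q).eval w = 0 → Summable fun j => α j / (w - v j))
    (hS : ∀ z, (P - C x * Q).eval z ≠ 0 →
      Q.eval z ^ 3 / (P - C x * Q).eval z = S.eval z + (Wp P Q).eval z *
        ∑ w ∈ (P - C x * Q).roots.toFinset, Q.eval w ^ 4 / (Wp P Q).eval w ^ 2 / (z - w)) :
    ∑' j, α j / (x - v j) = ∑ w ∈ (P - C x * Q).roots.toFinset,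
      Q.eval w ^ 4 / (Wp P Q).eval w ^ 2 * (∑' j, α j / (w - v j)) -
      (S.eval c / Q.eval c ^ 2 + ∑' j, S.eval (v j) / (Wp P Q).eval (v j) * α j) := by
  set W : Finset ℂ := (P - C x * Q).roots.toFinset with hW
  have hroot : ∀ w ∈ W, (P - C x * Q).eval w = 0 := by
    intro w hw
    rw [hW, Multiset.mem_toFinset] at hw
    exact (mem_roots'.1 hw).2
  have hD : ∀ z y : ℂ, Q.eval z ≠ 0 → y = P.eval z / Q.eval z →
      (P - C x * Q).eval z = Q.eval z * (y - x) := by
    intro z y hz hy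
    rw [hy]
    simp only [eval_sub, eval_mul, eval_C]
    field_simp
  have hv0x : v 0 - x ≠ 0 := sub_ne_zero.2 (hxv 0).symm
  have hDc : (P - C x * Q).eval c = Q.eval c * (v 0 - x) := hD c (v 0) hQc hv0
  have hSc : S.eval c / Q.eval c ^ 2 = 1 / (v 0 - x) := by
    have h := hS c (by rw [hDc]; exact mul_ne_zero hQc hv0x)
    rw [hc, zero_mul, add_zero, hDc] at h
    rw [← h]
    field_simp
  have hstep : ∀ j, α (j + 1) / (v (j + 1) - x) =
      S.eval (v j) / (Wp P Q).eval (v j) * α j +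
        ∑ w ∈ W, Q.eval w ^ 4 / (Wp P Q).eval w ^ 2 * (α j / (v j - w)) := by
    intro j
    have hvx : v (j + 1) - x ≠ 0 := sub_ne_zero.2 (hxv (j + 1)).symm
    have hDj : (P - C x * Q).eval (v j) = Q.eval (v j) * (v (j + 1) - x) :=
      hD (v j) (v (j + 1)) (hQv j) (hvs j)
    have h := hS (v j) (by rw [hDj]; exact mul_ne_zero (hQv j) hvx)
    have h2 : Q.eval (v j) ^ 2 / (v (j + 1) - x) = S.eval (v j) + (Wp P Q).eval (v j) *
        ∑ w ∈ W, Q.eval w ^ 4 / (Wp P Q).eval w ^ 2 / (v j - w) := by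
      rw [← h, hDj]
      have := hQv j
      field_simp
    have h3 : α (j + 1) / (v (j + 1) - x) =
        α j / (Wp P Q).eval (v j) * (Q.eval (v j) ^ 2 / (v (j + 1) - x)) := by
      rw [hαs j]
      ring
    rw [h3, h2, mul_add]
    congr 1
    · ring
    · have hN := hNv j
      rw [← mul_assoc, div_mul_cancel₀ _ hN, Finset.mul_sum]
      exact Finset.sum_congr rfl fun w _ => by ring
  have hsw : ∀ w ∈ W, Summable fun j => Q.eval w ^ 4 / (Wp P Q).eval w ^ 2 * (α j / (v j - w)) := by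
    intro w hw
    apply Summable.mul_left
    have h := (hsumw w (hroot w hw)).neg
    refine h.congr fun j => ?_
    rw [← div_neg, neg_sub]
  have htw : ∀ w ∈ W, ∑' j, Q.eval w ^ 4 / (Wp P Q).eval w ^ 2 * (α j / (v j - w)) =
      -(Q.eval w ^ 4 / (Wp P Q).eval w ^ 2 * ∑' j, α j / (w - v j)) := by
    intro w hw
    rw [tsum_mul_left, ← mul_neg, ← tsum_neg]
    congr 1
    refine tsum_congr fun j => ?_
    rw [← div_neg, neg_sub]
  have hL : ∑' j, α (j + 1) / (v (j + 1) - x) = -(∑' j, α j / (x - v j)) + 1 / (x - v 0) := by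
    have h := hsum.tsum_eq_zero_add
    rw [hα0] at h
    rw [h]
    have h2 : ∑' j, α (j + 1) / (v (j + 1) - x) = -∑' j, α (j + 1) / (x - v (j + 1)) := by
      rw [← tsum_neg]
      refine tsum_congr fun j => ?_
      rw [← div_neg, neg_sub]
    rw [h2]
    ring
  have hR : ∑' j, (S.eval (v j) / (Wp P Q).eval (v j) * α j +
        ∑ w ∈ W, Q.eval w ^ 4 / (Wp P Q).eval w ^ 2 * (α j / (v j - w))) =
      (∑' j, S.eval (v j) / (Wp P Q).eval (v j) * α j) +
        ∑ w ∈ W, -(Q.eval w ^ 4 / (Wp P Q).eval w ^ 2 * ∑' j, α j / (w - v j)) := by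
    rw [hTs.tsum_add (summable_sum hsw), Summable.tsum_finsetSum hsw,
      Finset.sum_congr rfl htw]
  have hfin : -(∑' j, α j / (x - v j)) + 1 / (x - v 0) =
      (∑' j, S.eval (v j) / (Wp P Q).eval (v j) * α j) +
        ∑ w ∈ W, -(Q.eval w ^ 4 / (Wp P Q).eval w ^ 2 * ∑' j, α j / (w - v j)) := by
    rw [← hL, ← hR]
    exact tsum_congr hstep
  have hneg : 1 / (x - v 0) = -(1 / (v 0 - x)) := by
    rw [← neg_sub (v 0) x, div_neg]
  rw [Finset.sum_neg_distrib] at hfin
  rw [hSc]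
  linear_combination (-1 : ℂ) * hfin + hneg

section orbs

variable {P Q : ℂ[X]} {d k : ℕ} {c : Fin k → ℂ} {m : Fin k → ℕ} {v α : Fin k → ℕ → ℂ} {K μ : ℝ}

theorem dvdW (O : Orbs P Q d k c m v α K μ) (i : Fin k) : (X - C (c i)) ^ m i ∣ Wp P Q := by
  obtain ⟨a, _, h⟩ := O.fac
  rw [h]
  exact (Finset.dvd_prod_of_mem _ (Finset.mem_univ i)).mul_left _

theorem degW (O : Orbs P Q d k c m v α K μ) : (Wp P Q).natDegree = 2 * d - 2 := by
  obtain ⟨a, ha, h⟩ := O.fac
  rw [h, natDegree_C_mul ha, natDegree_prod_of_monic _ _ fun i _ => (monic_X_sub_C _).pow _,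
    ← O.dgm]
  refine Finset.sum_congr rfl fun i _ => ?_
  rw [natDegree_pow, natDegree_X_sub_C, mul_one]

theorem Wc (O : Orbs P Q d k c m v α K μ) (i : Fin k) : (Wp P Q).eval (c i) = 0 := by
  obtain ⟨R, hR⟩ := dvdW O i
  rw [hR, eval_mul, eval_pow, eval_sub, eval_X, eval_C, sub_self,
    zero_pow (by have := O.pos i; omega), zero_mul]

theorem sumα (O : Orbs P Q d k c m v α K μ) (i : Fin k) : Summable fun j => ‖α i j‖ := by
  refine Summable.of_nonneg_of_le (fun _ => norm_nonneg _) (fun j => ?_)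
    ((summable_geometric_of_lt_one O.μ0.le O.μ1).mul_left K)
  refine le_trans ?_ (O.gr i j)
  have := norm_nonneg (α i j)
  nlinarith [sq_nonneg ‖v i j‖]

theorem sumS (O : Orbs P Q d k c m v α K μ) {S : ℂ[X]} (hS : S.natDegree ≤ 2 * d) (i : Fin k) :
    Summable fun j => S.eval (v i j) / (Wp P Q).eval (v i j) * α i j := by
  obtain ⟨c₀, hc₀, hlow⟩ := low O.cop O.deg
  obtain ⟨C, hC, hup⟩ := upp hS
  apply Summable.of_norm
  refine Summable.of_nonneg_of_le (fun _ => norm_nonneg _) (fun j => ?_)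
    (((summable_geometric_of_lt_one O.μ0.le O.μ1).mul_left (K * μ)).mul_left (C / c₀))
  have hQ := O.Qv i j
  have hW := O.Wv i j
  have h1 : S.eval (v i j) / (Wp P Q).eval (v i j) * α i j =
      S.eval (v i j) / Q.eval (v i j) ^ 2 * α i (j + 1) := by
    rw [O.αs]
    field_simp
  have h2 := O.gr i (j + 1)
  have h3 : ‖S.eval (v i j)‖ ≤ C / c₀ * (‖P.eval (v i j)‖ ^ 2 + ‖Q.eval (v i j)‖ ^ 2) := by
    calc ‖S.eval (v i j)‖ ≤ C * (1 + ‖v i j‖) ^ (2 * d) := hup _
      _ = C / c₀ * (c₀ * (1 + ‖v i j‖) ^ (2 * d)) := by field_simp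
      _ ≤ _ := by
        gcongr
        exact hlow _
  have hQ0 : 0 < ‖Q.eval (v i j)‖ := norm_pos_iff.2 hQ
  have h4 : ‖S.eval (v i j) / Q.eval (v i j) ^ 2‖ ≤ C / c₀ * (1 + ‖v i (j + 1)‖ ^ 2) := by
    rw [norm_div, norm_pow, div_le_iff₀ (by positivity), O.vs, norm_div]
    refine h3.trans (le_of_eq ?_)
    field_simp
    ring
  rw [h1, norm_mul]
  calc ‖S.eval (v i j) / Q.eval (v i j) ^ 2‖ * ‖α i (j + 1)‖
      ≤ C / c₀ * (1 + ‖v i (j + 1)‖ ^ 2) * ‖α i (j + 1)‖ := by gcongr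
    _ = C / c₀ * (‖α i (j + 1)‖ * (1 + ‖v i (j + 1)‖ ^ 2)) := by ring
    _ ≤ C / c₀ * (K * μ ^ (j + 1)) := by gcongr
    _ = C / c₀ * (K * μ * μ ^ j) := by ring

/-- vanishing moments -/
theorem moments (O : Orbs P Q d k c m v α K μ) {β : Fin k → ℂ}
    (h : ∀ S : ℂ[X], S.natDegree ≤ 2 * d → Tng Q c m S → ∑ i, β i * WF P Q c v α i S = 0)
    {l : ℕ} (hl : l ≤ 2) : ∑ i, β i * ∑' j, α i j * v i j ^ l = 0 := by
  have h1 := h (Wp P Q * X ^ l) (by
    refine natDegree_mul_le.trans ?_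
    rw [degW O, natDegree_X_pow]
    have := O.hd
    omega) (by
    intro i
    refine ⟨0, ?_⟩
    rw [C_0, zero_mul, sub_zero]
    exact (dvdW O i).mul_right _)
  rw [← h1]
  refine Finset.sum_congr rfl fun i _ => ?_
  rw [WF, eval_mul, Wc O i, zero_mul, zero_div, zero_add]
  congr 1
  refine tsum_congr fun j => ?_
  rw [eval_mul, eval_pow, eval_X]
  have := O.Wv i j
  field_simp

theorem Qne (hcop : IsCoprime P Q) {x w : ℂ} (hw : (P - C x * Q).eval w = 0) :
    Q.eval w ≠ 0 := by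
  intro h0
  rw [eval_sub, eval_mul, h0, mul_zero, sub_zero] at hw
  obtain ⟨a, b, hab⟩ := hcop
  have h1 := congrArg (eval w) hab
  rw [eval_add, eval_mul, eval_mul, hw, h0, mul_zero, mul_zero, add_zero, eval_one] at h1
  exact zero_ne_one h1

/-- preimages of full sets -/
theorem ae_pre (hcop : IsCoprime P Q) {p : ℂ → Prop} (hp : ∀ᵐ w : ℂ, p w) :
    ∀ᵐ z : ℂ, ∀ w, (P - C z * Q).eval w = 0 → p w := by
  set N : Set ℂ := {w | ¬ p w} ∩ {w | Q.eval w ≠ 0} with hN
  have hN0 : volume N = 0 := measure_mono_null inter_subset_left (ae_iff.1 hp)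
  have hdiff : DifferentiableOn ℝ (fun w : ℂ => P.eval w / Q.eval w) N := by
    intro w hw
    have h1 : DifferentiableAt ℂ (fun w : ℂ => P.eval w / Q.eval w) w :=
      (P.differentiable w).div (Q.differentiable w) hw.2
    exact (h1.restrictScalars ℝ).differentiableWithinAt
  have h2 := addHaar_image_eq_zero_of_differentiableOn_of_addHaar_eq_zero volume hdiff hN0
  have h3 : ∀ᵐ z : ℂ, z ∉ (fun w : ℂ => P.eval w / Q.eval w) '' N := measure_eq_zero_iff_ae_notMem.1 h2
  filter_upwards [h3] with z hz w hw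
  by_contra hpw
  apply hz
  have hQw := Qne hcop hw
  refine ⟨w, ⟨hpw, hQw⟩, ?_⟩
  rw [eval_sub, eval_mul, eval_C, sub_eq_zero] at hw
  simp only [hw]
  field_simp

theorem coef_ne {P Q : ℂ[X]} {d : ℕ} (hd0 : 0 < d) (hd : max P.natDegree Q.natDegree = d) :
    P.coeff d ≠ 0 ∨ Q.coeff d ≠ 0 := by
  by_contra h
  push Not at h
  rcases le_total P.natDegree Q.natDegree with h1 | h1
  · rw [max_eq_right h1] at hd
    have h2 : Q.leadingCoeff = 0 := by rw [leadingCoeff, hd, h.2]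
    rw [leadingCoeff_eq_zero] at h2
    rw [h2, natDegree_zero] at hd
    omega
  · rw [max_eq_left h1] at hd
    have h2 : P.leadingCoeff = 0 := by rw [leadingCoeff, hd, h.1]
    rw [leadingCoeff_eq_zero] at h2
    rw [h2, natDegree_zero] at hd
    omega

/-- invariance at a point -/
theorem inv_at (O : Orbs P Q d k c m v α K μ) {β : Fin k → ℂ}
    (h : ∀ S : ℂ[X], S.natDegree ≤ 2 * d → Tng Q c m S → ∑ i, β i * WF P Q c v α i S = 0)
    {x : ℂ} (hx : x ≠ P.coeff d / Q.coeff d) (hxv : ∀ i j, x ≠ v i j)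
    (hs : ∀ i, Summable fun j => ‖α i j / (x - v i j)‖)
    (hsw : ∀ w, (P - C x * Q).eval w = 0 → ∀ i, Summable fun j => ‖α i j / (w - v i j)‖) :
    HH v α β x = ∑ w ∈ (P - C x * Q).roots.toFinset,
      Q.eval w ^ 4 / (Wp P Q).eval w ^ 2 * HH v α β w := by
  have hPd : P.natDegree ≤ d := by rw [← O.deg]; exact le_max_left _ _
  have hQd : Q.natDegree ≤ d := by rw [← O.deg]; exact le_max_right _ _
  have hdp : 0 < d := by have := O.hd; omega
  have hcoef : (P - C x * Q).coeff d ≠ 0 := by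
    rw [coeff_sub, coeff_C_mul]
    intro h0
    rcases eq_or_ne (Q.coeff d) 0 with h1 | h1
    · rw [h1, mul_zero, sub_zero] at h0
      exact (coef_ne hdp O.deg).elim (fun h => h h0) (fun h => h h1)
    · apply hx
      rw [eq_div_iff h1]
      exact (sub_eq_zero.1 h0).symm
  have hdeg : (P - C x * Q).natDegree = d := by
    refine le_antisymm ?_ (le_natDegree_of_ne_zero hcoef)
    refine (natDegree_sub_le _ _).trans (max_le hPd ?_)
    exact (natDegree_C_mul_le _ _).trans hQd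
  have hD0 : P - C x * Q ≠ 0 := by
    intro h0
    rw [h0, coeff_zero] at hcoef
    exact hcoef rfl
  have hWr : ∀ w, (P - C x * Q).eval w = 0 → (Wp P Q).eval w ≠ 0 := by
    intro w hw h0
    have hQw := Qne O.cop hw
    obtain ⟨a, ha, hf⟩ := O.fac
    rw [hf, eval_mul, eval_C, eval_prod] at h0
    have h1 := (mul_eq_zero.1 h0).resolve_left ha
    rw [Finset.prod_eq_zero_iff] at h1
    obtain ⟨i, _, hi⟩ := h1
    rw [eval_pow, eval_sub, eval_X, eval_C] at hi
    have h2 : w = c i := sub_eq_zero.1 ((pow_eq_zero_iff (by have := O.pos i; omega)).1 hi)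
    apply hxv i 0
    rw [O.v0, ← h2, eq_div_iff hQw]
    rw [eval_sub, eval_mul, eval_C, sub_eq_zero] at hw
    exact hw.symm
  obtain ⟨S, hSd, hS⟩ := Pool.Agent.H792R2.CE.D1_pf hPd hQd hdeg hD0 hWr
  -- the polynomial identity
  have hpoly : Q ^ 3 = (P - C x * Q) * S + Wp P Q * ∑ w ∈ (P - C x * Q).roots.toFinset,
      C (Q.eval w ^ 4 / (Wp P Q).eval w ^ 2) * ((P - C x * Q) /ₘ (X - C w)) := by
    set D : ℂ[X] := P - C x * Q with hDdef
    set E : ℂ[X] := ∑ w ∈ D.roots.toFinset,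
      C (Q.eval w ^ 4 / (Wp P Q).eval w ^ 2) * (D /ₘ (X - C w)) with hE
    clear_value E
    clear_value D
    have h1 : D * (Q ^ 3 - (D * S + Wp P Q * E)) = 0 := by
      apply Polynomial.funext
      intro z
      rw [eval_mul, eval_zero]
      by_cases hz : D.eval z = 0
      · rw [hz, zero_mul]
      · have h2 := hS z hz
        have h3 : E.eval z = D.eval z *
            ∑ w ∈ D.roots.toFinset, Q.eval w ^ 4 / (Wp P Q).eval w ^ 2 / (z - w) := by
          rw [hE, eval_finsetSum, Finset.mul_sum]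
          refine Finset.sum_congr rfl fun w hw => ?_
          have hw' : D.eval w = 0 := by
            rw [Multiset.mem_toFinset, mem_roots hD0] at hw
            exact hw
          have h4 : (X - C w) * (D /ₘ (X - C w)) = D := mul_divByMonic_eq_iff_isRoot.2 hw'
          have h5 := congrArg (eval z) h4
          rw [eval_mul, eval_sub, eval_X, eval_C] at h5
          have h6 : z - w ≠ 0 := by
            intro h0
            rw [h0, zero_mul] at h5
            exact hz h5.symm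
          rw [eval_mul, eval_C, ← h5]
          field_simp
        rw [eval_sub, eval_add, eval_mul, eval_mul, eval_pow, h3]
        have h7 : Q.eval z ^ 3 = D.eval z * (S.eval z + (Wp P Q).eval z *
            ∑ w ∈ D.roots.toFinset, Q.eval w ^ 4 / (Wp P Q).eval w ^ 2 / (z - w)) := by
          have h8 : Q.eval z ^ 3 = D.eval z * (Q.eval z ^ 3 / D.eval z) := by field_simp
          rw [h8]
          exact congrArg (fun t => D.eval z * t) h2
        rw [h7]
        ring
    have h9 := (mul_eq_zero.1 h1).resolve_left hD0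
    exact sub_eq_zero.1 h9
  have hTng : Tng Q c m S := fun i =>
    tng_aux (O.Qc i) (dvdW O i) (by rw [← O.v0 i]; exact hxv i 0) rfl hpoly
  have hz := h S hSd hTng
  have hone : ∀ i, β i * ∑' j, α i j / (x - v i j) = β i * (∑ w ∈ (P - C x * Q).roots.toFinset,
      Q.eval w ^ 4 / (Wp P Q).eval w ^ 2 * (∑' j, α i j / (w - v i j))) -
      β i * WF P Q c v α i S := by
    intro i
    rw [one (S := S) (Wc O i) (O.Qc i) (O.v0 i) (O.vs i) (O.α0 i) (O.αs i) (O.Qv i) (O.Wv i)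
      (sumS O hSd i) (hxv i) (hs i).of_norm (fun w hw => (hsw w hw i).of_norm) hS, mul_sub]
    rfl
  have h10 : HH v α β x = ∑ i, β i * ∑' j, α i j / (x - v i j) := rfl
  rw [h10, Finset.sum_congr rfl fun i _ => hone i, Finset.sum_sub_distrib, hz, sub_zero]
  simp only [Finset.mul_sum]
  rw [Finset.sum_comm]
  refine Finset.sum_congr rfl fun w _ => ?_
  have h11 : HH v α β w = ∑ i, β i * ∑' j, α i j / (w - v i j) := rfl
  rw [h11, Finset.mul_sum]
  exact Finset.sum_congr rfl fun i _ => by ring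

end orbs

/-- **Invariance under the Ruelle operator, and vanishing moments.** -/
theorem t_INV : S_INV := by
  intro P Q d k c m v α K μ β O h
  refine ⟨?_, ?_, ?_, ?_⟩
  · have hker := Pool.Agent.H792R2.CE.D3a_kernel
    have h1 : ∀ᵐ z : ℂ, ∀ i, Summable fun j => ‖α i j / (z - v i j)‖ :=
      ae_all_iff.2 fun i => Pool.Agent.H792R2.CE.D3b_ae (sumα O i) hker
    have h2 := ae_pre O.cop h1
    have h3 : ∀ᵐ z : ℂ, ∀ i j, z ≠ v i j :=
      ae_all_iff.2 fun i => ae_all_iff.2 fun j => Measure.ae_ne volume (v i j)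
    have h4 : ∀ᵐ z : ℂ, z ≠ P.coeff d / Q.coeff d := Measure.ae_ne volume _
    filter_upwards [h1, h2, h3, h4] with z h1 h2 h3 h4
    exact inv_at O h h4 h3 h1 h2
  · have h1 := moments O h (l := 0) (by norm_num)
    simpa only [pow_zero, mul_one] using h1
  · have h1 := moments O h (l := 1) (by norm_num)
    simpa only [pow_one] using h1
  · exact moments O h (l := 2) le_rfl

end Pool.Agent.H726.HY211
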